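import Pool.Agent.H61.KU.TA

/-!
# The module HOM of the board `ku_modules`

Complex projective spaces are homogeneous.
-/

open Topology Set
open Pool.Agent.H59 Pool.Agent.H64.LB Pool.Agent.H61.KU

namespace Pool.Agent.H56.KU

/-- the action of a linear automorphism on projective space -/
noncomputable def pmap {n : ℕ} (A : (Fin (n + 1) → ℂ) ≃L[ℂ] (Fin (n + 1) → ℂ)) : PN n → PN n :=
  Quotient.map (fun v : NZ n => (⟨A v.1, by
    intro h
    exact v.2 (A.injective (h.trans (map_zero A).symm))⟩ : NZ n)) (by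
    rintro v w ⟨c, hc, h⟩
    exact ⟨c, hc, by
      change A w.1 = c • A v.1
      rw [h, map_smul]⟩)

theorem pmap_pt {n : ℕ} (A : (Fin (n + 1) → ℂ) ≃L[ℂ] (Fin (n + 1) → ℂ)) (v : NZ n)
    (h : A v.1 ≠ 0) : pmap A (pt v) = pt ⟨A v.1, h⟩ := rfl

theorem continuous_pmap {n : ℕ} (A : (Fin (n + 1) → ℂ) ≃L[ℂ] (Fin (n + 1) → ℂ)) :
    Continuous (pmap A) := by
  refine Continuous.quotient_map' (f := fun v : NZ n => (⟨A v.1, by
    intro h
    exact v.2 (A.injective (h.trans (map_zero A).symm))⟩ : NZ n)) ?_ _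
  exact (A.continuous.comp continuous_subtype_val).subtype_mk _

theorem pmap_symm_pmap {n : ℕ} (A : (Fin (n + 1) → ℂ) ≃L[ℂ] (Fin (n + 1) → ℂ)) (x : PN n) :
    pmap A.symm (pmap A x) = x := by
  obtain ⟨v, rfl⟩ := exists_pt x
  have h : A v.1 ≠ 0 := fun h => v.2 (A.injective (h.trans (map_zero A).symm))
  rw [pmap_pt A v h, pmap_pt A.symm ⟨A v.1, h⟩ (by simpa using v.2)]
  congr 1
  exact Subtype.ext (A.symm_apply_apply v.1)

theorem pf_hom : T_HOM := by
  intro n x y
  obtain ⟨v, rfl⟩ := exists_pt x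
  obtain ⟨w, rfl⟩ := exists_pt y
  obtain ⟨A, hA⟩ := SeparatingDual.exists_continuousLinearEquiv_apply_eq (R := ℂ) v.2 w.2
  refine ⟨{ toFun := pmap A
            invFun := pmap A.symm
            left_inv := pmap_symm_pmap A
            right_inv := fun z => by
              have := pmap_symm_pmap A.symm z
              rwa [ContinuousLinearEquiv.symm_symm] at this
            continuous_toFun := continuous_pmap A
            continuous_invFun := continuous_pmap A.symm }, ?_⟩
  change pmap A (pt v) = pt w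
  rw [pmap_pt A v (by rw [hA]; exact w.2)]
  congr 1
  exact Subtype.ext hA

end Pool.Agent.H56.KU
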