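import Pool.Agent.H61.KU.TT
import Pool.Agent.H64.LB.Util

/-!
# The module KKN of the board `ku_modules`

If `ε : S2 → PN 1` is not zero on `H_2` then `id × ε` is not zero on `H_4`.
-/

open Topology Set
open Pool.Agent.H59 Pool.Agent.H64.LB Pool.Agent.H24.LB Pool.Agent.H61.KU
open scoped unitInterval ContinuousMap

namespace Pool.Agent.H56.KU

theorem pf_kkn (hS : T_SUSP) (hE : T_S2E) (hHM : T_HM) : T_KKN := by
  intro ε hε h0
  obtain ⟨S⟩ := hS (ZMod 2)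
  obtain ⟨e, -⟩ := hE
  obtain ⟨x, hx⟩ : ∃ x, HH.map (ZMod 2) 2 ε x ≠ 0 := by
    by_contra h
    refine hε (LinearMap.ext fun x => ?_)
    by_contra h'
    exact h ⟨x, h'⟩
  let z : KK (ZMod 2) 2 (2 + 2) S2 := (S.κ 2 2 S2).symm x
  have hz : HH.map (ZMod 2) (2 + 2) (ContinuousMap.snd : C(Sph 2 × S2, S2)) z.1 = 0 := z.2
  have hsnd : (ContinuousMap.snd : C(Sph 2 × PN 1, PN 1)).comp
      ((ContinuousMap.id (Sph 2)).prodMap ε) =
      ε.comp (ContinuousMap.snd : C(Sph 2 × S2, S2)) := rfl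
  have hz' : HH.map (ZMod 2) (2 + 2) ((ContinuousMap.id (Sph 2)).prodMap ε) z.1 ∈
      KK (ZMod 2) 2 (2 + 2) (PN 1) := by
    rw [KK, LinearMap.mem_ker, ← HH.map_comp, hsnd, HH.map_comp, hz, map_zero]
  have hk := S.natural 2 2 S2 (PN 1) ε z ⟨_, hz'⟩ rfl
  rw [LinearEquiv.apply_symm_apply] at hk
  obtain ⟨y, hy⟩ := (HH_hequiv_prod_bijective hHM (ZMod 2) (2 + 2) (T := S2) e).2 z.1
  have hcomp : ((ContinuousMap.id (Sph 2)).prodMap ε).comp
      (e.toFun.prodMap (ContinuousMap.id S2)) =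
      (e.toFun.prodMap (ContinuousMap.id (PN 1))).comp ((ContinuousMap.id S2).prodMap ε) := rfl
  have h1 : HH.map (ZMod 2) (2 + 2) ((ContinuousMap.id (Sph 2)).prodMap ε) z.1 = 0 := by
    rw [← hy, ← HH.map_comp, hcomp, HH.map_comp]
    have h2 : HH.map (ZMod 2) (2 + 2) ((ContinuousMap.id S2).prodMap ε) y = 0 := by
      rw [h0]
      rfl
    rw [h2, map_zero]
  apply hx
  rw [← hk]
  have h3 : (⟨_, hz'⟩ : KK (ZMod 2) 2 (2 + 2) (PN 1)) = 0 := Subtype.ext h1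
  rw [h3, map_zero]

end Pool.Agent.H56.KU
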